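import Pool.Agent.N162.HN.Stm
import Pool.Agent.H427R3.ZT.Riem

/-! # HN/PLC and HN/VEX: valuation rings of function fields are places; extension of valuation
rings. -/

set_option autoImplicit false

open FF Pool.Agent.W603.LV

namespace Pool.Agent.N454.HN

theorem plc_ : Pool.Agent.N162.HN.StPLC := by
  intro Ω E _ _ _ _ _ _ O hk hO
  obtain ⟨v, hv⟩ := Pool.Agent.H427R3.ZT.exists_place_O (k := Ω) (F := E) O hk hO
  refine ⟨v, fun f => ?_⟩
  rw [← hv]
  change v.Reg f ↔ _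
  by_cases hf : f = 0
  · subst hf
    exact ⟨fun _ => Or.inl rfl, fun _ => v.reg_zero⟩
  · rw [FF.Place.reg_iff _ hf]
    exact ⟨fun h => Or.inr h, fun h => h.resolve_left hf⟩

theorem vex_ : Pool.Agent.N162.HN.StVEX := by
  intro E _ E₀ O₀
  obtain ⟨O, hO, hO'⟩ := LocalSubring.exists_le_valuationSubring
    (LocalSubring.range ((E₀.subtype).comp O₀.subtype))
  have h1 : ∀ a : E₀, a ∈ O₀ → (a : E) ∈ O := fun a ha => hO ⟨⟨a, ha⟩, rfl⟩
  refine ⟨O, fun a => ⟨h1 a, fun ha => ?_⟩⟩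
  by_contra hna
  have hinv : a⁻¹ ∈ O₀ := (O₀.mem_or_inv_mem a).resolve_left hna
  have ha0 : a ≠ 0 := fun h => hna (h ▸ O₀.zero_mem)
  have ha0' : (a : E) ≠ 0 := fun h => ha0 (Subtype.ext h)
  -- the inverse is a unit in `O`, hence in `O₀`
  let b : (LocalSubring.range ((E₀.subtype).comp O₀.subtype)).toSubring :=
    ⟨((a⁻¹ : E₀) : E), ⟨⟨a⁻¹, hinv⟩, rfl⟩⟩
  have hu : IsUnit (Subring.inclusion hO b) := by
    refine IsUnit.of_mul_eq_one (⟨(a : E), ha⟩ : O.toLocalSubring.toSubring) ?_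
    apply Subtype.ext
    change ((a⁻¹ : E₀) : E) * (a : E) = 1
    rw [Subfield.coe_inv]
    exact inv_mul_cancel₀ ha0'
  obtain ⟨c, hc⟩ := (hO'.map_nonunit b hu).exists_right_inv
  obtain ⟨⟨d, hd⟩, hd'⟩ := c.2
  have hc' : ((a⁻¹ : E₀) : E) * (d : E) = 1 := by
    have := congrArg Subtype.val hc
    change ((a⁻¹ : E₀) : E) * (c : E) = 1 at this
    rw [← hd'] at this
    exact this
  apply hna
  have : a = d := by
    apply Subtype.ext
    rw [Subfield.coe_inv] at hc'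
    field_simp at hc'
    exact hc'.symm
  rw [this]
  exact hd

end Pool.Agent.N454.HN
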